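import Pool.Agent.R199.CE.Main
import Pool.Agent.R199.CE.Comb
import Pool.Agent.R199.CE.Real
import Pool.Agent.R199.CE.Exp

/-!
# MP_ef3a35_an, Q1 (positive answer)

There is an S-unimodal map of `[0,1]` (a quadratic polynomial) whose turning point is regularly
recurrent, whose kneading sequence is not slowly recurrent, and which satisfies the
Collet-Eckmann condition.
-/

namespace Pool.Agent.Results.MP_ef3a35_an.QuadraticToeplitzCE

open Pool.Agent.R199.CE

/-- For some `μ ∈ (1,2)` the quadratic map `f(x) = 1 - (μ/2) (2x-1)^2` of `[0,1]`, which is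
S-unimodal with turning point `1/2`, has a regularly recurrent turning point (which is not
periodic), its kneading sequence is not slowly recurrent, and it satisfies the Collet-Eckmann
condition. -/
theorem result :
    ∃ μ : ℝ, 1 < μ ∧ μ < 2 ∧
      IsSUnimodal (fun x : ℝ => 1 - μ / 2 * (2 * x - 1) ^ 2) (1 / 2) ∧
      (∀ i, 1 ≤ i → (fun x : ℝ => 1 - μ / 2 * (2 * x - 1) ^ 2)^[i] (1 / 2) ≠ 1 / 2) ∧
      RegularlyRecurrent (fun x : ℝ => 1 - μ / 2 * (2 * x - 1) ^ 2) (1 / 2) ∧
      ¬ SlowlyRecurrent (kneading (fun x : ℝ => 1 - μ / 2 * (2 * x - 1) ^ 2) (1 / 2)) ∧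
      ColletEckmann (fun x : ℝ => 1 - μ / 2 * (2 * x - 1) ^ 2) (1 / 2) :=
  assemble CombJob.jobComb RealJob.jobReal ExpJob.jobExp

end Pool.Agent.Results.MP_ef3a35_an.QuadraticToeplitzCE
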